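import Mathlib
import Pool.Agent.Zk12.BS.Stm
import Pool.Agent.Zk12.UnrM
import Pool.Agent.TH213.SEL.Bir2

/-!
# Birational sections of almost all quadratic twists: the fixed field and its places
-/

set_option autoImplicit false
set_option linter.all false

open Polynomial NumberField IsDedekindDomain IntermediateField

namespace Pool.Agent.Zk95.BS

open Pool.Agent.W620.SC Pool.Agent.TH954 Pool.Agent.Y158.GR Pool.Agent.Zk12

attribute [-instance] DivisionRing.toRatAlgebra SubfieldClass.instSMulRat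
attribute [local instance 1] DivisionRing.toRatAlgebra

/-- change of the field of values -/
def mapPlc {M C C' : Type} [Field M] [Field C] [Field C'] [Algebra ℚ M] [Algebra ℚ C]
    [Algebra ℚ C'] (f : C →+* C') (p : Plc ℚ M C) : Plc ℚ M C' where
  W := p.W
  ρ := f.comp p.ρ
  loc := fun x hx => p.loc x (by
    intro h
    apply hx
    rw [RingHom.comp_apply, h, map_zero])
  comm := fun c => by
    obtain ⟨h, e⟩ := p.comm c
    refine ⟨h, ?_⟩
    rw [RingHom.comp_apply, e]
    exact RingHom.congr_fun (Subsingleton.elim (f.comp (algebraMap ℚ C)) (algebraMap ℚ C')) c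

theorem mapPlc_W {M C C' : Type} [Field M] [Field C] [Field C'] [Algebra ℚ M] [Algebra ℚ C]
    [Algebra ℚ C'] (f : C →+* C') (p : Plc ℚ M C) : (mapPlc f p).W = p.W := rfl

section

variable {F M B : Type} [Field F] [Field M] [Field B] [Algebra ℚ F] [Algebra F M] [Algebra ℚ M]
  [Algebra ℚ B] [IsScalarTower ℚ F M] [IsAlgClosure ℚ B] [Algebra.IsAlgebraic F M]

/-- the coordinate -/
noncomputable def tF (x : F) (e z δ : ℚ) : F :=
  2 * ((x - algebraMap ℚ F e)⁻¹ - algebraMap ℚ F z) / algebraMap ℚ F δ - 3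

/-- the coordinate in the fixed field -/
noncomputable def TL (s : GalSection ℚ F M B) (x : F) (e z δ : ℚ) : fixL s :=
  ⟨algebraMap F M (tF x e z δ), F_fixL s _⟩

/-- the setup over the fixed field -/
theorem setupL (s : GalSection ℚ F M B) (hR : RootN (s.j : B →+* M)) {x : F}
    (hx : Transcendental ℚ x) {K : Type} (E : K → ℚ)
    (i : K) (hAt : ∀ l l', l ≠ i → l' ≠ i → ∃ γ : M, (∀ g, s.s g γ = γ) ∧
      γ ^ 2 = algebraMap F M ((x - algebraMap ℚ F (E l)) * (x - algebraMap ℚ F (E l')) *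
        algebraMap ℚ F ((E i - E l) * (E i - E l'))))
    (l : Fin 4 → K) (hl : ∀ j, l j ≠ i) (hEl : ∀ j, E (l j) ≠ E i) (z δ : ℚ) (hδ : δ ≠ 0)
    (hAP : ∀ j : Fin 4, (E (l j) - E i)⁻¹ = z + (j : ℕ) * δ) :
    ∃ k : Subfield (fixL s), (∀ y : fixL s, y ^ 2 ∈ k → y ∈ k) ∧ ClsE k ∧
      TL s x (E i) z δ ∉ k ∧ ∀ j : Fin 4, ∃ q, TL s x (E i) z δ + 3 - 2 * ((j : ℕ) : fixL s) =
        (TL s x (E i) z δ + 3) * q ^ 2 := by
  haveI : Algebra.IsAlgebraic ℚ B := IsAlgClosure.isAlgebraic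
  haveI : CharZero B := charZero_of_injective_algebraMap (algebraMap ℚ B).injective
  haveI : Normal ℚ B := IsAlgClosure.normal ℚ B
  haveI hchF : CharZero F := charZero_of_injective_algebraMap (algebraMap ℚ F).injective
  haveI hchM : CharZero M := charZero_of_injective_algebraMap (algebraMap ℚ M).injective
  haveI hchL : CharZero (fixL s) := charZero_of_injective_algebraMap
    (algebraMap ℚ (fixL s)).injective
  let sA : (B ≃ₐ[ℚ] B) →* RingAut M := (toRingAutHom F M).comp s.s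
  let φ : fixL s →+* M := algebraMap (fixL s) M
  have hSD : SD (s.j : B →+* M) sA := ⟨fun σ c => s.sec σ c, fun w => gal_cont s.s s.cont w⟩
  have hFx : Fxd sA φ := ⟨fun z σ => z.2 σ, fun z hz => ⟨⟨z, hz⟩, rfl⟩⟩
  have hC : ClsE (kk (s.j : B →+* M) φ) := clsE_rootN hR hSD hFx
  have hk : ∀ y : fixL s, y ^ 2 ∈ kk (s.j : B →+* M) φ → y ∈ kk (s.j : B →+* M) φ :=
    fun y => kk_sq
  have hkQ : ∀ q : ℚ, algebraMap ℚ (fixL s) q ∈ kk (s.j : B →+* M) φ := by
    intro q
    refine mem_kk.2 ⟨algebraMap ℚ B q, ?_⟩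
    change s.j (algebraMap ℚ B q) = algebraMap (fixL s) M (algebraMap ℚ (fixL s) q)
    rw [s.j.commutes]
    rfl
  -- the elements
  let X : fixL s := ⟨algebraMap F M x, F_fixL s x⟩
  have hXk : X ∉ kk (s.j : B →+* M) φ := by
    intro h
    obtain ⟨c, hc⟩ := mem_kk.1 h
    have h1 : s.j c = algebraMap F M x := hc
    have h2 : IsAlgebraic ℚ (algebraMap F M x) := by
      rw [← h1]
      exact (Algebra.IsAlgebraic.isAlgebraic (R := ℚ) c).algHom s.j
    exact (transcendental_algebraMap_iff (R := ℚ) (algebraMap F M).injective (a := x)).2 hx h2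
  have hXe : ∀ q : ℚ, X - algebraMap ℚ (fixL s) q ≠ 0 := by
    intro q h
    apply hXk
    rw [sub_eq_zero.1 h]
    exact hkQ q
  have hinj : Function.Injective (algebraMap ℚ (fixL s)) := (algebraMap ℚ (fixL s)).injective
  have hδL : algebraMap ℚ (fixL s) δ ≠ 0 := by
    rw [Ne, _root_.map_eq_zero]
    exact hδ
  have hγ : ∀ l l', l ≠ i → l' ≠ i → ∃ γ : fixL s,
      γ ^ 2 = (X - algebraMap ℚ (fixL s) (E l)) * (X - algebraMap ℚ (fixL s) (E l')) *
        ((algebraMap ℚ (fixL s) (E i) - algebraMap ℚ (fixL s) (E l)) *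
          (algebraMap ℚ (fixL s) (E i) - algebraMap ℚ (fixL s) (E l'))) := by
    intro l l' h1 h2
    obtain ⟨γ, h3, h4⟩ := hAt l l' h1 h2
    refine ⟨⟨γ, h3⟩, Subtype.ext ?_⟩
    change γ ^ 2 = (algebraMap F M x - algebraMap ℚ M (E l)) *
      (algebraMap F M x - algebraMap ℚ M (E l')) * ((algebraMap ℚ M (E i) - algebraMap ℚ M (E l)) *
          (algebraMap ℚ M (E i) - algebraMap ℚ M (E l')))
    rw [h4]
    simp only [map_mul, map_sub, ← IsScalarTower.algebraMap_apply ℚ F M]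
  set u : fixL s := (X - algebraMap ℚ (fixL s) (E i))⁻¹ with hu
  set T : fixL s := TL s x (E i) z δ with hTdef
  have hT : T = 2 * (u - algebraMap ℚ (fixL s) z) / algebraMap ℚ (fixL s) δ - 3 := by
    apply Subtype.ext
    change algebraMap F M (2 * ((x - algebraMap ℚ F (E i))⁻¹ - algebraMap ℚ F z) /
      algebraMap ℚ F δ - 3) = 2 * ((algebraMap F M x - algebraMap ℚ M (E i))⁻¹ -
        algebraMap ℚ M z) / algebraMap ℚ M δ - 3
    simp only [map_mul, map_sub, map_div₀, map_inv₀, map_ofNat,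
      ← IsScalarTower.algebraMap_apply ℚ F M]
  have hT' : ∀ j : Fin 4, T + 3 - 2 * ((j : ℕ) : fixL s) =
      -(2 / algebraMap ℚ (fixL s) δ) * ((X - algebraMap ℚ (fixL s) (E (l j))) /
        ((X - algebraMap ℚ (fixL s) (E i)) *
          (algebraMap ℚ (fixL s) (E (l j)) - algebraMap ℚ (fixL s) (E i)))) := by
    intro j
    have h1 : algebraMap ℚ (fixL s) (E (l j)) - algebraMap ℚ (fixL s) (E i) ≠ 0 := by
      rw [← map_sub, Ne, _root_.map_eq_zero, sub_eq_zero]
      exact hEl j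
    have h2 := congrArg (algebraMap ℚ (fixL s)) (hAP j)
    rw [map_inv₀, map_sub, map_add, map_mul, map_natCast] at h2
    have h3 : ((j : ℕ) : fixL s) * algebraMap ℚ (fixL s) δ =
        (algebraMap ℚ (fixL s) (E (l j)) - algebraMap ℚ (fixL s) (E i))⁻¹ -
          algebraMap ℚ (fixL s) z := by rw [h2]; ring
    have h4 := hXe (E i)
    have h5 : 2 * ((j : ℕ) : fixL s) = 2 * ((algebraMap ℚ (fixL s) (E (l j)) -
        algebraMap ℚ (fixL s) (E i))⁻¹ - algebraMap ℚ (fixL s) z) /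
          algebraMap ℚ (fixL s) δ := by
      rw [← h3]
      field_simp
    rw [h5, hT, hu]
    field_simp
    ring
  have hq : ∀ j : Fin 4, ∃ q, T + 3 - 2 * ((j : ℕ) : fixL s) = (T + 3) * q ^ 2 := by
    intro j
    obtain ⟨γ, hγ'⟩ := hγ (l j) (l 0) (hl j) (hl 0)
    have h0 := hT' 0
    have hz : ((((0 : Fin 4) : ℕ)) : fixL s) = 0 := by simp
    rw [hz, mul_zero, sub_zero] at h0
    have d1 : algebraMap ℚ (fixL s) (E (l j)) - algebraMap ℚ (fixL s) (E i) ≠ 0 := by
      rw [← map_sub, Ne, _root_.map_eq_zero, sub_eq_zero]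
      exact hEl j
    have d2 : algebraMap ℚ (fixL s) (E (l 0)) - algebraMap ℚ (fixL s) (E i) ≠ 0 := by
      rw [← map_sub, Ne, _root_.map_eq_zero, sub_eq_zero]
      exact hEl 0
    have d3 := hXe (E i)
    have d4 := hXe (E (l 0))
    refine ⟨γ / ((X - algebraMap ℚ (fixL s) (E (l 0))) *
      (algebraMap ℚ (fixL s) (E (l j)) - algebraMap ℚ (fixL s) (E i))), ?_⟩
    rw [hT' j, h0, div_pow, hγ']
    field_simp
    ring
  have hTk : T ∉ kk (s.j : B →+* M) φ := by
    intro h
    have h2m : (2 : fixL s) ∈ kk (s.j : B →+* M) φ := by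
      have := natCast_mem (kk (s.j : B →+* M) φ) 2
      rwa [Nat.cast_ofNat] at this
    have h3m : (3 : fixL s) ∈ kk (s.j : B →+* M) φ := by
      have := natCast_mem (kk (s.j : B →+* M) φ) 3
      rwa [Nat.cast_ofNat] at this
    have h1 : u = (T + 3) * algebraMap ℚ (fixL s) δ / 2 + algebraMap ℚ (fixL s) z := by
      rw [hT]
      field_simp
      ring
    have h2 : u ∈ kk (s.j : B →+* M) φ := by
      rw [h1]
      exact add_mem (div_mem (mul_mem (add_mem h h3m) (hkQ δ)) h2m) (hkQ z)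
    apply hXk
    have h3 : X = u⁻¹ + algebraMap ℚ (fixL s) (E i) := by
      rw [hu, inv_inv]
      ring
    rw [h3]
    exact add_mem (inv_mem h2) (hkQ _)
  exact ⟨kk (s.j : B →+* M) φ, hk, hC, hTk, hq⟩

/-- if the coordinate is infinite at a place of the fixed field, then `x = e` there -/
theorem val_zero {s : GalSection ℚ F M B} {Lv C : Type} [Field Lv] [Field C] [Algebra ℚ Lv]
    [Algebra Lv C] [Algebra ℚ C] [IsScalarTower ℚ Lv C] [CharZero Lv] [IsAlgClosure Lv C]
    [Normal ℚ B] [Algebra.IsAlgebraic ℚ B] {p : Plc ℚ M C} (hp : s.GivenBy Lv p) {x : F}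
    {e z δ : ℚ} (hδ : δ ≠ 0) (hTW : TL s x e z δ ∉ (plcL hp).W) :
    p.val (algebraMap F M (x - algebraMap ℚ F e)) 0 := by
  let X : fixL s := ⟨algebraMap F M x, F_fixL s x⟩
  set u : fixL s := (X - algebraMap ℚ (fixL s) e)⁻¹ with hu
  have hT : TL s x e z δ = 2 * (u - algebraMap ℚ (fixL s) z) / algebraMap ℚ (fixL s) δ - 3 := by
    apply Subtype.ext
    change algebraMap F M (2 * ((x - algebraMap ℚ F e)⁻¹ - algebraMap ℚ F z) /
      algebraMap ℚ F δ - 3) = 2 * ((algebraMap F M x - algebraMap ℚ M e)⁻¹ -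
        algebraMap ℚ M z) / algebraMap ℚ M δ - 3
    simp only [map_mul, map_sub, map_div₀, map_inv₀, map_ofNat,
      ← IsScalarTower.algebraMap_apply ℚ F M]
  have huW : u ∉ (plcL hp).W := by
    intro h
    apply hTW
    have hW : ∀ q : ℚ, algebraMap ℚ (fixL s) q ∈ (plcL hp).W := fun q =>
      (Plc.val_alg (pl := plcL hp) q).mem
    have h2m : (2 : fixL s) ∈ (plcL hp).W := by
      have := hW 2
      rwa [map_ofNat] at this
    have h3m : (3 : fixL s) ∈ (plcL hp).W := by
      have := hW 3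
      rwa [map_ofNat] at this
    have h1 : TL s x e z δ =
        2 * (u - algebraMap ℚ (fixL s) z) * algebraMap ℚ (fixL s) δ⁻¹ - 3 := by
      rw [hT, map_inv₀]
      ring
    rw [h1]
    exact sub_mem (mul_mem (mul_mem h2m (sub_mem h (hW z))) (hW _)) h3m
  have hfin := plcL_val (Plc.val_inv_of_notMem huW)
  rw [map_zero] at hfin
  have h6 : ((u⁻¹ : fixL s) : M) = algebraMap F M (x - algebraMap ℚ F e) := by
    rw [hu, inv_inv, map_sub, ← IsScalarTower.algebraMap_apply ℚ F M]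
    rfl
  rw [h6] at hfin
  exact hfin

end

end Pool.Agent.Zk95.BS
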