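import Mathlib
import Pool.Agent.Zk95.BS.Setup
import Pool.Agent.Zk47.BS.Bl3
import Pool.Agent.Zk90.BS.Gp2
import Pool.Agent.Zk94.BS.Ut
import Pool.Agent.Zk49.Koe
import Pool.Agent.Zk95.TD.Ex
import Pool.Agent.W262.G3.Fin2
import Pool.Agent.W623.SecG.Loc2
import Pool.Agent.TH213.SEL.Transp

/-!
# Birational sections of almost all quadratic twists: the assembly
-/

set_option autoImplicit false
set_option linter.all false

open Polynomial NumberField IsDedekindDomain IntermediateField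

namespace Pool.Agent.Zk95.BS

open Pool.Agent.W620.SC Pool.Agent.TH954 Pool.Agent.Y158.GR Pool.Agent.Zk12 Pool.Agent.Zk12.BS
open Pool.Agent.Zk95.TD (CrossRatio Progressions ex crossRatio_ex progressions_ex)

/-- the isomorphism of the completion with `ℚ_p` -/
noncomputable def fp (p : Nat.Primes) :
    ((Rat.HeightOneSpectrum.primesEquiv (R := 𝓞 ℚ)).symm p).adicCompletion ℚ →+* ℚ_[p] :=
  ((Padic.adicCompletionEquiv (𝓞 ℚ) p).symm.toAlgEquiv : _ →+* _)

attribute [-instance] DivisionRing.toRatAlgebra SubfieldClass.instSMulRat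
attribute [local instance 1] DivisionRing.toRatAlgebra

section

variable {F M B : Type} [Field F] [Field M] [Field B] [Algebra ℚ F] [Algebra F M] [Algebra ℚ M]
  [Algebra ℚ B] [IsScalarTower ℚ F M] [IsAlgClosure ℚ B] [Algebra.IsAlgebraic F M]

/-- `x = e_i` at all the local points -/
theorem val_all (s : GalSection ℚ F M B) (hR : RootN (s.j : B →+* M))
    (p : ∀ v : HeightOneSpectrum (𝓞 ℚ), Plc ℚ M (AlgebraicClosure (v.adicCompletion ℚ)))
    (hp : ∀ v, s.GivenBy (v.adicCompletion ℚ) (p v)) {x : F}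
    (hx : Transcendental ℚ x) {K : Type} (E : K → ℚ)
    (i : K) (hAt : ∀ l l', l ≠ i → l' ≠ i → ∃ γ : M, (∀ g, s.s g γ = γ) ∧
      γ ^ 2 = algebraMap F M ((x - algebraMap ℚ F (E l)) * (x - algebraMap ℚ F (E l')) *
        algebraMap ℚ F ((E i - E l) * (E i - E l'))))
    (l : Fin 4 → K) (hl : ∀ j, l j ≠ i) (hEl : ∀ j, E (l j) ≠ E i) (z δ : ℚ) (hδ : δ ≠ 0)
    (hAP : ∀ j : Fin 4, (E (l j) - E i)⁻¹ = z + (j : ℕ) * δ)
    (hK : ∀ n : ℕ, 0 < n → ∃ (c : ℚ) (w : M), (∀ g, s.s g w = w) ∧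
      algebraMap F M ((tF x (E i) z δ - 1) / (tF x (E i) z δ + 1)) = algebraMap ℚ M c * w ^ n) :
    ∀ v, (p v).val (algebraMap F M (x - algebraMap ℚ F (E i))) 0 := by
  haveI : Algebra.IsAlgebraic ℚ B := IsAlgClosure.isAlgebraic
  haveI : CharZero B := charZero_of_injective_algebraMap (algebraMap ℚ B).injective
  haveI : Normal ℚ B := IsAlgClosure.normal ℚ B
  haveI hchL : CharZero (fixL s) := charZero_of_injective_algebraMap
    (algebraMap ℚ (fixL s)).injective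
  haveI hcv : ∀ v : HeightOneSpectrum (𝓞 ℚ), CharZero (v.adicCompletion ℚ) := fun v =>
    charZero_of_injective_algebraMap (algebraMap ℚ (v.adicCompletion ℚ)).injective
  obtain ⟨k, hk, hC, hTk, hq⟩ := setupL s hR hx E i hAt l hl hEl z δ hδ hAP
  have hbl := Pool.Agent.Zk47.BS.bl2' Pool.Agent.Zk90.BS.gp2 Pool.Agent.Zk94.BS.ut (fixL s) k hk hC
    (fun q hq => mapPlc (fp ⟨q, hq.out⟩) (plcL (hp
      ((Rat.HeightOneSpectrum.primesEquiv (R := 𝓞 ℚ)).symm ⟨q, hq.out⟩))))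
    (TL s x (E i) z δ) (TL s x (E i) z δ + 3) hTk (by
      intro n hn
      obtain ⟨c, w, hw, h⟩ := hK n hn
      refine ⟨c, ⟨w, hw⟩, Subtype.ext ?_⟩
      change (algebraMap F M (tF x (E i) z δ) - 1) / (algebraMap F M (tF x (E i) z δ) + 1) =
        algebraMap ℚ M c * w ^ n
      rw [← h, map_div₀, map_sub, map_add, map_one]) (by
      obtain ⟨q, hq2⟩ := hq 2
      refine ⟨q, ?_⟩
      rw [← hq2]
      have : (((2 : Fin 4) : ℕ) : fixL s) = 2 := by norm_num
      rw [this]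
      ring) (by
      obtain ⟨q, hq2⟩ := hq 1
      refine ⟨q, ?_⟩
      rw [← hq2]
      have : (((1 : Fin 4) : ℕ) : fixL s) = 1 := by norm_num
      rw [this]
      ring) (by
      obtain ⟨q, hq2⟩ := hq 3
      refine ⟨q, ?_⟩
      rw [← hq2]
      have : (((3 : Fin 4) : ℕ) : fixL s) = 3 := by norm_num
      rw [this]
      ring) ⟨1, by ring⟩
  intro v
  refine val_zero (z := z) (hp v) hδ ?_
  have h1 := @hbl (Rat.HeightOneSpectrum.primesEquiv v : Nat.Primes)
    ⟨(Rat.HeightOneSpectrum.primesEquiv v : Nat.Primes).2⟩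
  rw [mapPlc_W] at h1
  have h2 : (Rat.HeightOneSpectrum.primesEquiv (R := 𝓞 ℚ)).symm
      ⟨((Rat.HeightOneSpectrum.primesEquiv v : Nat.Primes) : ℕ),
        (Rat.HeightOneSpectrum.primesEquiv v : Nat.Primes).2⟩ = v :=
    (Rat.HeightOneSpectrum.primesEquiv (R := 𝓞 ℚ)).symm_apply_apply v
  rwa [h2] at h1

end

section

variable {F Ω B : Type} [Field F] [Field Ω] [Field B] [Algebra ℚ F] [Algebra F Ω] [Algebra ℚ Ω]
  [Algebra ℚ B] [IsScalarTower ℚ F Ω] [IsAlgClosure F Ω] [IsAlgClosure ℚ B]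

/-- the birational theorem for one section -/
theorem bir_one (hKU : S_KU2) (s : GalSection ℚ F Ω B) {x : F}
    (hx : Transcendental ℚ x) (hF : Algebra.IsAlgebraic (IntermediateField.adjoin ℚ {x}) F)
    {K : Type} (E : K → ℚ)
    (i : K) (hAt : ∀ l l', l ≠ i → l' ≠ i → ∃ γ : Ω, (∀ g, s.s g γ = γ) ∧
      γ ^ 2 = algebraMap F Ω ((x - algebraMap ℚ F (E l)) * (x - algebraMap ℚ F (E l')) *
        algebraMap ℚ F ((E i - E l) * (E i - E l'))))
    (l : Fin 4 → K) (hl : ∀ j, l j ≠ i) (hEl : ∀ j, E (l j) ≠ E i) (z δ : ℚ) (hδ : δ ≠ 0)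
    (hAP : ∀ j : Fin 4, (E (l j) - E i)⁻¹ = z + (j : ℕ) * δ) :
    ∃ O : ValuationSubring F, (x - algebraMap ℚ F (E i))⁻¹ ∉ O ∧ s.ArisesFrom O ∧
      ∀ O' : ValuationSubring F, s.ArisesFrom O' → O' = O := by
  have hΩ1 : IsAlgClosed Ω := IsAlgClosure.isAlgClosed F
  have hΩ2 : Algebra.IsAlgebraic F Ω := IsAlgClosure.isAlgebraic
  have hcF : CharZero F := charZero_of_injective_algebraMap (algebraMap ℚ F).injective
  have hloc := Pool.Agent.Zk49.locallyGeometric s
  choose pl hpl using fun v => hloc v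
  have hne : ∀ c : ℚ, x - algebraMap ℚ F c ≠ 0 := by
    intro c h
    apply hx
    rw [sub_eq_zero.1 h]
    exact isAlgebraic_algebraMap c
  have hne' : ∀ c : ℚ, tF x (E i) z δ - algebraMap ℚ F c ≠ 0 := by
    intro c h
    have h1 : algebraMap ℚ F δ ≠ 0 := (_root_.map_ne_zero _).2 hδ
    have h2 : (x - algebraMap ℚ F (E i))⁻¹ = algebraMap ℚ F ((c + 3) * δ / 2 + z) := by
      unfold tF at h
      simp only [map_add, map_mul, map_div₀, map_ofNat]
      field_simp at h ⊢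
      linear_combination h
    apply hne (E i + ((c + 3) * δ / 2 + z)⁻¹)
    rw [map_add, map_inv₀, ← h2, inv_inv]
    ring
  have hm1 := hne' 1
  have hp1 := hne' (-1)
  rw [map_one] at hm1
  rw [map_neg, map_one, sub_neg_eq_add] at hp1
  have hval : ∀ v, (pl v).val (algebraMap F Ω (x - algebraMap ℚ F (E i))) 0 := by
    refine val_all s (rootN_unr (∅ : Set (ValuationSubring F))
      (fun O hO => absurd hO (Set.notMem_empty _)) (AlgHom.id F Ω)
      Pool.Agent.TH213.SEL.id_range s.j) pl (fun v => hpl v) hx E i hAt l hl hEl z δ hδ hAP ?_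
    exact hKU F Ω Ω B (∅ : Set (ValuationSubring F)) (AlgHom.id F Ω)
      (fun O hO => absurd hO (Set.notMem_empty _)) Pool.Agent.TH213.SEL.id_range s _
      (div_ne_zero hm1 hp1) (fun O hO => absurd hO (Set.notMem_empty _))
  refine Pool.Agent.TH213.SEL.bir_of_val ⟨x, hx, hF⟩ s pl (fun v => ?_) (hne _) hval
  intro σ τ hστ y
  refine hpl v σ ((eqv ℚ B).autCongr τ) ?_ y _ ⟨y.2, rfl⟩
  intro z c hc
  obtain ⟨y, rfl⟩ := (eqv ℚ B).surjective z
  have e1 : (pl v).val ((toSAct s).j y) ((pl v).iot (toSAct s).j y) := Plc.val_j _ y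
  have e2 : (pl v).val ((toSAct s).j (τ y)) ((pl v).iot (toSAct s).j (τ y)) := Plc.val_j _ (τ y)
  have e3 : s.j ((eqv ℚ B).autCongr τ (eqv ℚ B y)) = (toSAct s).j (τ y) := by
    change s.j (eqv ℚ B (τ ((eqv ℚ B).symm (eqv ℚ B y)))) = _
    rw [AlgEquiv.symm_apply_apply]
    rfl
  have e4 : (pl v).iot (toSAct s).j y = c := e1.unique hc
  rw [e3, ← e4, ← hστ y]
  exact e2

end

/-- Let `F` be an extension of `ℚ` with elements `x`, `y`, `d y² = ∏ (x - e_i)`, where `x` is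
transcendental and `F` is algebraic over `ℚ(x)`, that is, the function field of the curve
`d y² = ∏ (x - e_i)` or of a covering of it, and let `Ω` be an algebraic closure of `F`.  EVERY
section of `Gal(Ω/F) → G_ℚ` arises from exactly one rational point, and `x = e_i` there for some
`i`. -/
def AllSections {K : Type} [Fintype K] (e : K → ℤ) (d : ℤ) : Prop :=
  ∀ (F Ω B : Type) [Field F] [Field Ω] [Field B] [Algebra ℚ F] [Algebra F Ω] [Algebra ℚ Ω]
    [Algebra ℚ B] [IsScalarTower ℚ F Ω] [IsAlgClosure F Ω] [IsAlgClosure ℚ B] (x y : F),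
    Transcendental ℚ x → Algebra.IsAlgebraic (IntermediateField.adjoin ℚ {x}) F →
    (d : F) * y ^ 2 = ∏ i, (x - (e i : F)) →
    ∀ s : GalSection ℚ F Ω B,
      (∃! O : ValuationSubring F, s.ArisesFrom O) ∧
        ∃ i, ∀ O : ValuationSubring F, s.ArisesFrom O → (x - algebraMap ℚ F (e i))⁻¹ ∉ O

/-- the theorem for one `d` which is not exceptional -/
theorem all_of (hKU : S_KU2) {K : Type} [Fintype K] {e : K → ℤ} (he : Function.Injective e)
    (hPr : Progressions e) {d : ℤ} (hbad : ¬ Pool.Agent.W623.SecG.Bad2.{0, 0} e d) :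
    AllSections e d := by
  classical
  intro F Ω B _ _ _ _ _ _ _ _ _ _ x y hx halgx hxy s
  have hcl : IsAlgClosed Ω := IsAlgClosure.isAlgClosed F
  have halg : Algebra.IsAlgebraic F Ω := IsAlgClosure.isAlgebraic
  set G : GSection ℚ F Ω ∅ :=
    Pool.Agent.TH213.SEL.ofGal (AlgHom.id F Ω) Pool.Agent.TH213.SEL.id_range s with hG
  obtain ⟨i, hi⟩ : ∃ i, Pool.Agent.W623.SecG.At G x e i := by
    by_contra hno
    push Not at hno
    exact hbad ⟨F, Ω, inferInstance, inferInstance, inferInstance, inferInstance, inferInstance,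
      inferInstance, hcl, halg, ∅, G, x, y, fun O hO => absurd hO (Set.notMem_empty _), hx, hxy,
      hno⟩
  have hE : Function.Injective (fun k : K => (e k : ℚ)) := by
    intro a b h
    have h' : (e a : ℚ) = (e b : ℚ) := h
    exact he (by exact_mod_cast h')
  obtain ⟨l, z, δ, hδ, hl, hAP⟩ := hPr i
  obtain ⟨O, hO1, hO2, hO3⟩ := bir_one hKU s hx halgx (fun k => (e k : ℚ)) i (by
      intro m m' h1 h2
      obtain ⟨γ, h3, h4⟩ := hi m m' h1 h2
      have h5 : Pool.Agent.TH213.SEL.phi (AlgHom.id F Ω) Pool.Agent.TH213.SEL.id_range γ =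
        (γ : Ω) := Pool.Agent.TH213.SEL.e_phi (AlgHom.id F Ω) Pool.Agent.TH213.SEL.id_range γ
      refine ⟨Pool.Agent.TH213.SEL.phi (AlgHom.id F Ω) Pool.Agent.TH213.SEL.id_range γ,
        Pool.Agent.TH213.SEL.fixed_of_ofGal (AlgHom.id F Ω) Pool.Agent.TH213.SEL.id_range s h3, ?_⟩
      rw [h5, h4]
      congr 1
      simp only [map_mul, map_sub, map_intCast]
      push_cast
      ring) l hl (fun j h => hl j (hE h)) z δ hδ hAP
  exact ⟨⟨O, hO2, fun O' h => hO3 O' h⟩, i, fun O' h => by rw [hO3 O' h]; exact hO1⟩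

/-- counting: a property which holds for all `d` which are not exceptional -/
theorem count {K : Type} [Fintype K] {e : K → ℤ} (he : Function.Injective e)
    (hev : Even (Fintype.card K)) (hK : 6 ≤ Fintype.card K) (hCR : CrossRatio e) (P : ℤ → Prop)
    (hP : ∀ d : ℤ, d ≠ 0 → ¬ Pool.Agent.W623.SecG.Bad2.{0, 0} e d → P d) :
    ∃ C : ℝ, ∀ X : ℕ, 2 ≤ X →
      ({d : ℤ | d.natAbs ≤ X ∧ Squarefree d ∧ ¬ P d}.ncard : ℝ) ≤
        C * X * (Real.log X) ^ (-(1 / 5) : ℝ) := by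
  classical
  obtain ⟨C, hC⟩ := Pool.Agent.W262.G3.fin2.{0, 0} Pool.Agent.W623.SecG.secloc2
    Pool.Agent.W623.SecE.secglob K e he hev hK hCR
  refine ⟨C, fun X hX => le_trans ?_ (hC X hX)⟩
  have hfin : {d : ℤ | d.natAbs ≤ X ∧ Squarefree d ∧
      Pool.Agent.W623.SecG.Bad2.{0, 0} e d}.Finite := by
    refine (Finset.finite_toSet (Finset.Icc (-(X : ℤ)) X)).subset ?_
    rintro d ⟨hd1, -⟩
    rw [Finset.mem_coe, Finset.mem_Icc]
    omega
  have hsub : {d : ℤ | d.natAbs ≤ X ∧ Squarefree d ∧ ¬ P d} ⊆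
      {d : ℤ | d.natAbs ≤ X ∧ Squarefree d ∧ Pool.Agent.W623.SecG.Bad2.{0, 0} e d} := by
    rintro d ⟨hd1, hd2, hd3⟩
    refine ⟨hd1, hd2, ?_⟩
    by_contra hbad
    exact hd3 (hP d hd2.ne_zero hbad)
  exact_mod_cast Set.ncard_le_ncard hsub hfin

/-- the final assembly, birational sections -/
theorem finB (hKU : S_KU2) (K : Type) [Fintype K] (e : K → ℤ) (he : Function.Injective e)
    (hev : Even (Fintype.card K)) (hK : 6 ≤ Fintype.card K) (hCR : CrossRatio e)
    (hPr : Progressions e) : ∃ C : ℝ, ∀ X : ℕ, 2 ≤ X →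
      ({d : ℤ | d.natAbs ≤ X ∧ Squarefree d ∧ ¬ AllSections e d}.ncard : ℝ) ≤
        C * X * (Real.log X) ^ (-(1 / 5) : ℝ) :=
  count he hev hK hCR _ fun d _ hbad => all_of hKU he hPr hbad

/-- the second count, for `ex` -/
theorem count_ex (P : ℤ → Prop)
    (hP : ∀ d : ℤ, d ≠ 0 → ¬ Pool.Agent.W623.SecG.Bad2.{0, 0} ex d → P d) :
    ∃ C : ℝ, ∀ X : ℕ, 2 ≤ X →
      ({d : ℤ | d.natAbs ≤ X ∧ Squarefree d ∧ ¬ P d}.ncard : ℝ) ≤
        C * X * (Real.log X) ^ (-(1 / 5) : ℝ) :=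
  count (e := ex) (by decide) (by decide) (by decide) crossRatio_ex P hP

end Pool.Agent.Zk95.BS
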