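import Mathlib
import Pool.Agent.Zk95.BS.Fin
import Pool.Agent.Zk94.BS.Ku

/-!
# Birational sections of almost all quadratic twists: the unconditional theorem
-/

set_option autoImplicit false
set_option linter.all false

namespace Pool.Agent.Zk95.BS

open Pool.Agent.Zk95.TD (CrossRatio Progressions ex crossRatio_ex progressions_ex)

/-- the theorem for one `d` which is not exceptional -/
theorem all {K : Type} [Fintype K] {e : K → ℤ} (he : Function.Injective e)
    (hPr : Progressions e) {d : ℤ} (hbad : ¬ Pool.Agent.W623.SecG.Bad2.{0, 0} e d) :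
    AllSections e d :=
  all_of Pool.Agent.Zk94.BS.ku2 he hPr hbad

/-- **almost all quadratic twists: all birational sections come from rational points** -/
theorem final (K : Type) [Fintype K] (e : K → ℤ) (he : Function.Injective e)
    (hev : Even (Fintype.card K)) (hK : 6 ≤ Fintype.card K) (hCR : CrossRatio e)
    (hPr : Progressions e) : ∃ C : ℝ, ∀ X : ℕ, 2 ≤ X →
      ({d : ℤ | d.natAbs ≤ X ∧ Squarefree d ∧ ¬ AllSections e d}.ncard : ℝ) ≤
        C * X * (Real.log X) ^ (-(1 / 5) : ℝ) :=
  finB Pool.Agent.Zk94.BS.ku2 K e he hev hK hCR hPr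

end Pool.Agent.Zk95.BS
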